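import Pool.Agent.H520R2.NMDefs

/-!
# Dual circuits
-/

namespace Pool.Agent.H559R5

open Pool.Agent.H520R2.NM

/-- The dual wire. -/
def dualW {ι : Type} {n : ℕ} : Wire ι n → Wire ι n
  | .input i => .input i
  | .const b => .const (!b)
  | .gate j => .gate j

/-- The dual circuit: AND and OR gates are exchanged, constants are negated, the arbitrary gates
are replaced by their duals. -/
def dualC {ι : Type} : {n : ℕ} → Circuit ι n → Circuit ι n
  | _, .empty => .empty
  | _, .and C a b => .or (dualC C) (dualW a) (dualW b)
  | _, .or C a b => .and (dualC C) (dualW a) (dualW b)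
  | _, .any C w u G a => .any (dualC C) w u (fun x j => !(G (fun i => !(x i)) j))
      (fun i => dualW (a i))

theorem dualW_eval {ι : Type} {n : ℕ} (a : Wire ι n) (x : ι → Bool) (v v' : Fin n → Bool)
    (hv : ∀ j, v' j = !(v j)) : (dualW a).eval (fun i => !(x i)) v' = !(a.eval x v) := by
  cases a with
  | input i => rfl
  | const b => rfl
  | gate j => exact hv j

theorem dualC_vals {ι : Type} : ∀ {n : ℕ} (C : Circuit ι n) (x : ι → Bool) (j : Fin n),
    (dualC C).vals (fun i => !(x i)) j = !(C.vals x j)
  | _, .empty, _, j => j.elim0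
  | _, .and C a b, x, j => by
    have ih := dualC_vals C x
    refine Fin.lastCases ?_ (fun i => ?_) j
    · simp only [dualC, Circuit.vals, Fin.snoc_last]
      rw [dualW_eval a x _ _ ih, dualW_eval b x _ _ ih, Bool.not_and]
    · simp only [dualC, Circuit.vals, Fin.snoc_castSucc]
      exact ih i
  | _, .or C a b, x, j => by
    have ih := dualC_vals C x
    refine Fin.lastCases ?_ (fun i => ?_) j
    · simp only [dualC, Circuit.vals, Fin.snoc_last]
      rw [dualW_eval a x _ _ ih, dualW_eval b x _ _ ih, Bool.not_or]
    · simp only [dualC, Circuit.vals, Fin.snoc_castSucc]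
      exact ih i
  | _, .any C w u G a, x, j => by
    have ih := dualC_vals C x
    refine Fin.addCases (fun i => ?_) (fun i => ?_) j
    · simp only [dualC, Circuit.vals, Fin.append_left]
      exact ih i
    · simp only [dualC, Circuit.vals, Fin.append_right]
      congr 2
      funext i'
      rw [dualW_eval (a i') x _ _ ih, Bool.not_not]

theorem dualC_size {ι : Type} : ∀ {n : ℕ} (C : Circuit ι n), (dualC C).size = C.size
  | _, .empty => rfl
  | _, .and C _ _ => by simp only [dualC, Circuit.size, dualC_size C]
  | _, .or C _ _ => by simp only [dualC, Circuit.size, dualC_size C]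
  | _, .any C _ _ _ _ => by simp only [dualC, Circuit.size, dualC_size C]

theorem dualC_fanins {ι : Type} : ∀ {n : ℕ} (C : Circuit ι n), (dualC C).fanins = C.fanins
  | _, .empty => rfl
  | _, .and C _ _ => by simp only [dualC, Circuit.fanins, dualC_fanins C]
  | _, .or C _ _ => by simp only [dualC, Circuit.fanins, dualC_fanins C]
  | _, .any C _ _ _ _ => by simp only [dualC, Circuit.fanins, dualC_fanins C]

/-- The dual circuit computes the dual function. -/
theorem dual_eval {ι : Type} {n : ℕ} (C : Circuit ι n) (out : Wire ι n) (x : ι → Bool) :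
    (dualW out).eval (fun i => !(x i)) ((dualC C).vals (fun i => !(x i))) =
      !(out.eval x (C.vals x)) :=
  dualW_eval out x _ _ (dualC_vals C x)

end Pool.Agent.H559R5
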