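import Mathlib

/-!
# Satisfiability of `K`-CNF formulas as a Boolean function
-/

namespace Pool.Agent.H559R5

/-- A `K`-CNF formula `F` with the variables `Fin n` is given by a bit `F c` for every possible
clause `c`: a clause is a `K`-tuple of literals (repetitions are allowed), and the literal `(i, v)`
is true if the variable `i` has the value `v`. The bit `F c` is `true` if the clause `c` occurs in
the formula. The formula is satisfiable if some assignment `a` makes some literal of every clause
true that occurs in the formula. -/
def SatK {n K : ℕ} (F : (Fin K → Fin n × Bool) → Bool) : Prop :=
  ∃ a : Fin n → Bool, ∀ c, F c = true → ∃ i, a (c i).1 = (c i).2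

end Pool.Agent.H559R5
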