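import Pool.Agent.H559R4.Chain
import Pool.Agent.H559R4.Tcl2
import Pool.Agent.H559R5.Dual
import Pool.Agent.H559R5.KDefs

/-!
# Encoding many clique problems in one `K`-CNF formula
-/

namespace Pool.Agent.H559R5

open Pool.Agent.H559R4 Pool.Agent.H520R2 Pool.Agent.H520R2.NM

/-- A clause with (at most) three literals, as a `K`-tuple. -/
def pad {n K : ℕ} (l₁ l₂ l₃ : Fin n × Bool) : Fin K → Fin n × Bool := fun i =>
  if i.val = 0 then l₁ else if i.val = 1 then l₂ else l₃

/-- The clauses of a ladder: the variables `S 0, ..., S D` change their value from `false` to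
`true` somewhere, and if they do at `j` then `U j` is true. -/
def LadC {n K D : ℕ} (U : Fin D → Fin n) (S : Fin (D + 1) → Fin n)
    (c : Fin K → Fin n × Bool) : Prop :=
  (∃ j : Fin D, c = pad (S j.succ, false) (S j.castSucc, true) (U j, true)) ∨
  c = (fun _ => (S (Fin.last D), true)) ∨ c = (fun _ => (S 0, false))

theorem lad_exists {n K D : ℕ} (hK : 3 ≤ K) (U : Fin D → Fin n) (S : Fin (D + 1) → Fin n)
    (a : Fin n → Bool)
    (h : ∀ c : Fin K → Fin n × Bool, LadC U S c → ∃ i, a (c i).1 = (c i).2) :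
    ∃ j, a (U j) = true := by
  by_contra hcon
  push Not at hcon
  have h0 : a (S 0) = false := by
    obtain ⟨i, hi⟩ := h _ (Or.inr (Or.inr rfl))
    exact hi
  have hl : a (S (Fin.last D)) = true := by
    obtain ⟨i, hi⟩ := h _ (Or.inr (Or.inl rfl))
    exact hi
  have key : ∀ j : Fin (D + 1), a (S j) = false := by
    intro j
    induction j using Fin.induction with
    | zero => exact h0
    | succ j ih =>
      obtain ⟨i, hi⟩ := h _ (Or.inl ⟨j, rfl⟩)
      unfold pad at hi
      split_ifs at hi with h1 h2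
      · exact hi
      · simp only at hi
        rw [ih] at hi
        exact absurd hi (by simp)
      · exact absurd hi (hcon j)
  rw [key] at hl
  exact absurd hl (by simp)

theorem lad_sat {n K D : ℕ} (hK : 3 ≤ K) (U : Fin D → Fin n) (S : Fin (D + 1) → Fin n)
    (a : Fin n → Bool) (u : Fin D) (hS : ∀ j, a (S j) = decide (u.val < j.val))
    (hU : ∀ j, a (U j) = decide (j = u)) (c : Fin K → Fin n × Bool) (hc : LadC U S c) :
    ∃ i, a (c i).1 = (c i).2 := by
  rcases hc with ⟨j, rfl⟩ | rfl | rfl
  · by_cases h1 : u.val < j.val + 1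
    · by_cases h2 : u.val < j.val
      · refine ⟨⟨1, by omega⟩, ?_⟩
        simp only [pad, one_ne_zero, if_false, if_true]
        rw [hS]
        simpa using h2
      · refine ⟨⟨2, by omega⟩, ?_⟩
        have : j = u := Fin.ext (by omega)
        simp [pad, hU, this]
    · refine ⟨⟨0, by omega⟩, ?_⟩
      simp only [pad, if_true]
      rw [hS]
      simpa using h1
  · refine ⟨⟨0, by omega⟩, ?_⟩
    simp only
    rw [hS]
    simp
  · refine ⟨⟨0, by omega⟩, ?_⟩
    simp only
    rw [hS]
    simp

section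

variable {k q g g' Q Q' n m K : ℕ}

/-- The type of the variables that are used. -/
abbrev VT (k g g' Q Q' : ℕ) : Type :=
  ((Fin k × Fin g) × (Fin Q ⊕ Fin (Q + 1))) ⊕ (Fin g' × (Fin Q' ⊕ Fin (Q' + 1)))

/-- The clauses of all the ladders. -/
def Lad (vr : VT k g g' Q Q' ↪ Fin n) (c : Fin K → Fin n × Bool) : Prop :=
  (∃ l : Fin k × Fin g, LadC (fun j => vr (Sum.inl (l, Sum.inl j)))
    (fun j => vr (Sum.inl (l, Sum.inr j))) c) ∨
  (∃ σ : Fin g', LadC (fun j => vr (Sum.inr (σ, Sum.inl j)))
    (fun j => vr (Sum.inr (σ, Sum.inr j))) c)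

/-- The clause that forbids the vertices `x` and `y` in the problem `s`. -/
def code (ev : Fin q ≃ (Fin g → Fin Q)) (es : Fin m ≃ (Fin g' → Fin Q'))
    (eK : Fin K ≃ (Fin g ⊕ Fin g) ⊕ Fin g') (vr : VT k g g' Q Q' ↪ Fin n)
    (s : Fin m) (x y : Fin k × Fin q) : Fin K → Fin n × Bool := fun i =>
  (vr (Sum.elim (Sum.elim (fun γ => Sum.inl ((x.1, γ), Sum.inl (ev x.2 γ)))
    (fun γ => Sum.inl ((y.1, γ), Sum.inl (ev y.2 γ))))
    (fun σ => Sum.inr (σ, Sum.inl (es s σ))) (eK i)), false)

theorem code_inj (hg : 0 < g) (ev : Fin q ≃ (Fin g → Fin Q)) (es : Fin m ≃ (Fin g' → Fin Q'))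
    (eK : Fin K ≃ (Fin g ⊕ Fin g) ⊕ Fin g') (vr : VT k g g' Q Q' ↪ Fin n)
    {s s' : Fin m} {x x' y y' : Fin k × Fin q}
    (h : code ev es eK vr s x y = code ev es eK vr s' x' y') : s = s' ∧ x = x' ∧ y = y' := by
  have key : ∀ z, Sum.elim (Sum.elim (fun γ => Sum.inl ((x.1, γ), Sum.inl (ev x.2 γ)))
      (fun γ => Sum.inl ((y.1, γ), Sum.inl (ev y.2 γ))))
      (fun σ => (Sum.inr (σ, Sum.inl (es s σ)) : VT k g g' Q Q')) z =
      Sum.elim (Sum.elim (fun γ => Sum.inl ((x'.1, γ), Sum.inl (ev x'.2 γ)))
      (fun γ => Sum.inl ((y'.1, γ), Sum.inl (ev y'.2 γ))))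
      (fun σ => (Sum.inr (σ, Sum.inl (es s' σ)) : VT k g g' Q Q')) z := by
    intro z
    have h1 := congrFun h (eK.symm z)
    simp only [code, Equiv.apply_symm_apply, Prod.mk.injEq, and_true] at h1
    exact vr.injective h1
  have hx : ∀ γ, x.1 = x'.1 ∧ ev x.2 γ = ev x'.2 γ := by
    intro γ
    have h1 := key (Sum.inl (Sum.inl γ))
    simp only [Sum.elim_inl, Sum.inl.injEq, Prod.mk.injEq, and_true] at h1
    exact h1
  have hy : ∀ γ, y.1 = y'.1 ∧ ev y.2 γ = ev y'.2 γ := by
    intro γ
    have h1 := key (Sum.inl (Sum.inr γ))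
    simp only [Sum.elim_inl, Sum.elim_inr, Sum.inl.injEq, Prod.mk.injEq, and_true] at h1
    exact h1
  have hs : ∀ σ, es s σ = es s' σ := by
    intro σ
    have h1 := key (Sum.inr σ)
    simp only [Sum.elim_inr, Sum.inr.injEq, Prod.mk.injEq, Sum.inl.injEq, true_and] at h1
    exact h1
  refine ⟨es.injective (funext hs), Prod.ext (hx ⟨0, hg⟩).1 (ev.injective (funext fun γ => (hx γ).2)),
    Prod.ext (hy ⟨0, hg⟩).1 (ev.injective (funext fun γ => (hy γ).2))⟩

open Classical in
/-- The bits that tell which clauses are absent. -/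
noncomputable def encK (ev : Fin q ≃ (Fin g → Fin Q)) (es : Fin m ≃ (Fin g' → Fin Q'))
    (eK : Fin K ≃ (Fin g ⊕ Fin g) ⊕ Fin g') (vr : VT k g g' Q Q' ↪ Fin n)
    (Y : Fin m → SimpleGraph (Fin k × Fin q)) : (Fin K → Fin n × Bool) → Bool := fun c =>
  decide (¬ Lad vr c ∧ ∀ s x y, code ev es eK vr s x y = c → ¬ x.1 < y.1 ∨ (Y s).Adj x y)

variable (ev : Fin q ≃ (Fin g → Fin Q)) (es : Fin m ≃ (Fin g' → Fin Q'))
  (eK : Fin K ≃ (Fin g ⊕ Fin g) ⊕ Fin g') (vr : VT k g g' Q Q' ↪ Fin n)

theorem encK_mono (Y Y' : Fin m → SimpleGraph (Fin k × Fin q)) (h : Y ≤ Y') :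
    encK ev es eK vr Y ≤ encK ev es eK vr Y' := by
  intro l
  unfold encK
  rw [Bool.le_iff_imp]
  simp only [decide_eq_true_eq]
  rintro ⟨h0, h1⟩
  refine ⟨h0, ?_⟩
  intro s x y hs
  rcases h1 s x y hs with h2 | h2
  · exact Or.inl h2
  · exact Or.inr (h s h2)

theorem encK_base (hg : 0 < g) (Y : Fin m → SimpleGraph (Fin k × Fin q)) (J : Fin m)
    (f : ((Fin K → Fin n × Bool) → Bool) → Bool) (hf : f ∈ VB (Fin K → Fin n × Bool)) :
    f ∘ (fun G => encK ev es eK vr (Function.update Y J G)) ∈ GB (Fin k × Fin q) := by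
  classical
  rcases hf with ⟨c, rfl⟩ | ⟨c, rfl⟩
  · exact Or.inl ⟨c, rfl⟩
  · by_cases hl : Lad vr c
    · left
      refine ⟨false, ?_⟩
      funext G
      simp only [Function.comp, encK, hl, not_true_eq_false, false_and, decide_false]
    · by_cases hj : ∃ s x y, code ev es eK vr s x y = c
      · obtain ⟨s0, x0, y0, rfl⟩ := hj
        have key : ∀ Y' : Fin m → SimpleGraph (Fin k × Fin q),
            encK ev es eK vr Y' (code ev es eK vr s0 x0 y0) =
            decide (¬ x0.1 < y0.1 ∨ (Y' s0).Adj x0 y0) := by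
          intro Y'
          unfold encK
          congr 1
          apply propext
          constructor
          · rintro ⟨_, h⟩
            exact h s0 x0 y0 rfl
          · intro h
            refine ⟨hl, ?_⟩
            intro s x y hs
            obtain ⟨rfl, rfl, rfl⟩ := code_inj hg ev es eK vr hs
            exact h
        by_cases h1 : ¬ x0.1 < y0.1
        · left
          refine ⟨true, ?_⟩
          funext G
          simp only [Function.comp, key, decide_eq_true_eq]
          exact Or.inl h1
        · by_cases hs : s0 = J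
          · subst hs
            right
            refine ⟨x0, y0, ?_⟩
            funext G
            simp only [Function.comp, key, adjFn, Function.update_self]
            congr 1
            apply propext
            constructor
            · rintro (h | h)
              · exact absurd h h1
              · exact h
            · exact fun h => Or.inr h
          · left
            refine ⟨decide (¬ x0.1 < y0.1 ∨ (Y s0).Adj x0 y0), ?_⟩
            funext G
            simp only [Function.comp, key, Function.update_of_ne hs]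
      · left
        refine ⟨true, ?_⟩
        funext G
        simp only [Function.comp, encK, decide_eq_true_eq]
        refine ⟨hl, ?_⟩
        intro s x y h
        exact absurd ⟨s, x, y, h⟩ hj

theorem encK_sat (hK : 3 ≤ K) (Y : Fin m → SimpleGraph (Fin k × Fin q)) :
    SatK (fun c => !(encK ev es eK vr Y c)) ↔ ∃ s, Tcl (Y s) := by
  classical
  constructor
  · rintro ⟨a, ha⟩
    have hlad : ∀ c : Fin K → Fin n × Bool, Lad vr c → ∃ i, a (c i).1 = (c i).2 := by
      intro c hc
      apply ha
      simp only [encK, hc, not_true_eq_false, false_and, decide_false, Bool.not_false]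
    have h1 : ∀ l : Fin k × Fin g, ∃ j, a (vr (Sum.inl (l, Sum.inl j))) = true := fun l =>
      lad_exists hK _ _ a (fun c hc => hlad c (Or.inl ⟨l, hc⟩))
    have h2 : ∀ σ : Fin g', ∃ j, a (vr (Sum.inr (σ, Sum.inl j))) = true := fun σ =>
      lad_exists hK _ _ a (fun c hc => hlad c (Or.inr ⟨σ, hc⟩))
    choose u hu using h1
    choose v hv using h2
    refine ⟨es.symm v, fun i => ev.symm (fun γ => u (i, γ)), fun i j hij => ?_⟩
    by_contra hadj
    have h3 := ha (code ev es eK vr (es.symm v) (i, ev.symm (fun γ => u (i, γ)))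
      (j, ev.symm (fun γ => u (j, γ)))) (by
        simp only [encK, Bool.not_eq_true', decide_eq_false_iff_not, not_and]
        intro _ hcon
        rcases hcon _ _ _ rfl with h | h
        · exact h hij
        · exact hadj h)
    obtain ⟨l, hl⟩ := h3
    unfold code at hl
    simp only [Equiv.apply_symm_apply] at hl
    rcases hz : eK l with (γ | γ) | σ
    · rw [hz] at hl
      simp only [Sum.elim_inl] at hl
      rw [hu] at hl
      exact absurd hl (by simp)
    · rw [hz] at hl
      simp only [Sum.elim_inl, Sum.elim_inr] at hl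
      rw [hu] at hl
      exact absurd hl (by simp)
    · rw [hz] at hl
      simp only [Sum.elim_inr] at hl
      rw [hv] at hl
      exact absurd hl (by simp)
  · rintro ⟨s, π, hπ⟩
    set gg : VT k g g' Q Q' → Bool := Sum.elim
      (fun z => Sum.elim (fun j => decide (j = ev (π z.1.1) z.1.2))
        (fun j => decide ((ev (π z.1.1) z.1.2).val < j.val)) z.2)
      (fun z => Sum.elim (fun j => decide (j = es s z.1))
        (fun j => decide ((es s z.1).val < j.val)) z.2) with hgg
    set a : Fin n → Bool := Function.extend vr gg (fun _ => false) with ha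
    have ha' : ∀ z, a (vr z) = gg z := fun z => vr.injective.extend_apply _ _ _
    refine ⟨a, fun c hc => ?_⟩
    by_contra hcon
    push Not at hcon
    have hnl : ¬ Lad vr c := by
      rintro (⟨l, hl⟩ | ⟨σ, hσ⟩)
      · obtain ⟨i, hi⟩ := lad_sat hK _ _ a (ev (π l.1) l.2)
          (fun j => by rw [ha']; rfl) (fun j => by rw [ha']; rfl) c hl
        exact hcon i hi
      · obtain ⟨i, hi⟩ := lad_sat hK _ _ a (es s σ)
          (fun j => by rw [ha']; rfl) (fun j => by rw [ha']; rfl) c hσ
        exact hcon i hi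
    simp only [encK, Bool.not_eq_true', decide_eq_false_iff_not, not_and] at hc
    apply hc hnl
    rintro s' x y rfl
    by_cases hxy : x.1 < y.1
    · right
      have hcon' : ∀ z, a (code ev es eK vr s' x y (eK.symm z)).1 = true := by
        intro z
        have h1 := hcon (eK.symm z)
        rw [show (code ev es eK vr s' x y (eK.symm z)).2 = false from rfl] at h1
        simpa using h1
      have hx : x.2 = π x.1 := by
        apply ev.injective
        funext γ
        have h1 := hcon' (Sum.inl (Sum.inl γ))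
        unfold code at h1
        simp only [Equiv.apply_symm_apply, Sum.elim_inl] at h1
        rw [ha'] at h1
        simpa [hgg] using h1
      have hy : y.2 = π y.1 := by
        apply ev.injective
        funext γ
        have h1 := hcon' (Sum.inl (Sum.inr γ))
        unfold code at h1
        simp only [Equiv.apply_symm_apply, Sum.elim_inl, Sum.elim_inr] at h1
        rw [ha'] at h1
        simpa [hgg] using h1
      have hs : s' = s := by
        apply es.injective
        funext σ
        have h1 := hcon' (Sum.inr σ)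
        unfold code at h1
        simp only [Equiv.apply_symm_apply, Sum.elim_inr] at h1
        rw [ha'] at h1
        simpa [hgg] using h1
      have h4 := hπ _ _ hxy
      rw [← hx, ← hy, ← hs] at h4
      exact h4
    · exact Or.inl hxy

end

/-- The lower bound with all its parameters. -/
theorem satK_lower {κ b g g' Q Q' n K N : ℕ} (hκ : 2 ≤ κ) (hb : 2 ≤ b) (hg : 0 < g)
    (hQ : Q ^ g = 2 ^ b) (hK3 : 3 ≤ K) (hK : K = 2 * g + g')
    (hn : (κ + 1) * g * (2 * Q + 1) + g' * (2 * Q' + 1) ≤ n)
    (C : Circuit (Fin K → Fin n × Bool) N) (out : Wire (Fin K → Fin n × Bool) N)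
    (hC : ∀ F, out.eval F (C.vals F) = true ↔ ¬ SatK F)
    (hρ : (C.fanins.map (· + 1)).prod ≤ Q' ^ g') :
    2 ^ ((κ + 1) * b) / apx2 κ b ^ 2 ≤ C.size + C.fanins.sum := by
  classical
  by_contra hcon
  push Not at hcon
  have ev : Fin (2 ^ b) ≃ (Fin g → Fin Q) := Fintype.equivOfCardEq (by simp [hQ])
  have es : Fin (Q' ^ g') ≃ (Fin g' → Fin Q') := Fintype.equivOfCardEq (by simp)
  have eK : Fin K ≃ (Fin g ⊕ Fin g) ⊕ Fin g' := Fintype.equivOfCardEq (by simp; omega)
  obtain ⟨vr⟩ : Nonempty (VT (κ + 1) g g' Q Q' ↪ Fin n) :=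
    Function.Embedding.nonempty_of_card_le (by
      simp only [VT, Fintype.card_sum, Fintype.card_prod, Fintype.card_fin]
      calc _ = (κ + 1) * g * (2 * Q + 1) + g' * (2 * Q' + 1) := by ring
        _ ≤ n := hn)
  have h := chain_gen (Y := SimpleGraph (Fin (κ + 1) × Fin (2 ^ b))) Tcl
    (not_tcl_bot (by omega)) (GB (Fin (κ + 1) × Fin (2 ^ b)))
    (2 ^ ((κ + 1) * b) / apx2 κ b ^ 2)
    (fun s f hf hfT => tcl_lowerR hκ hb f hf hfT) (m := Q' ^ g')
    (encK ev es eK vr) (fun y y' hy => encK_mono ev es eK vr y y' hy)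
    (fun y J f hf => encK_base ev es eK vr hg y J f hf) (dualC C) (dualW out)
    (fun y => by
      rw [← encK_sat ev es eK vr hK3 y]
      have h1 := dual_eval C out (fun c => !(encK ev es eK vr y c))
      simp only [Bool.not_not] at h1
      rw [h1, Bool.not_eq_true', ← Bool.not_eq_true, hC, not_not]) (by
      rw [dualC_size, dualC_fanins]
      exact hcon)
  rw [dualC_fanins] at h
  omega

end Pool.Agent.H559R5
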