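import Pool.Agent.H559R5.KEnc

/-!
# Circuits with few non-monotone gates need almost exponential size for `K`-SAT
-/

namespace Pool.Agent.H559R5

open Filter Pool.Agent.H559R4 Pool.Agent.H520R2 Pool.Agent.H520R2.NM

theorem paramsK (ε : ℝ) (hε : 0 < ε) (hε1 : ε < 1) : ∃ g : ℕ, 1 ≤ g ∧ ∀ g' : ℕ, 1 ≤ g' →
    ∀ᶠ n : ℕ in atTop, ∃ κ b Q Q' : ℕ, 2 ≤ κ ∧ 2 ≤ b ∧ Q ^ g = 2 ^ b ∧
      (κ + 1) * g * (2 * Q + 1) + g' * (2 * Q' + 1) ≤ n ∧ n ^ (g' - 1) ≤ Q' ^ g' ∧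
      ∀ s : ℕ, 2 ^ ((κ + 1) * b) / apx2 κ b ^ 2 ≤ s → (2 : ℝ) ^ ((n : ℝ) ^ (1 - ε)) ≤ s := by
  obtain ⟨g, hg⟩ := exists_nat_ge (64 / ε)
  have hg64 : (64 : ℝ) ≤ g := by
    refine le_trans ?_ hg
    rw [le_div_iff₀ hε]
    nlinarith
  have hgN : 64 ≤ g := by exact_mod_cast hg64
  have hgε : 64 ≤ ε * g := by
    rw [div_le_iff₀ hε] at hg
    linarith
  have hg0 : (0 : ℝ) < g := by linarith
  refine ⟨g, by omega, ?_⟩
  intro g' hg'
  have ht1 : Tendsto (fun n : ℕ => (n : ℝ) ^ (ε / 4)) atTop atTop :=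
    (tendsto_rpow_atTop (by linarith)).comp tendsto_natCast_atTop_atTop
  have ht2 : Tendsto (fun n : ℕ => (n : ℝ) ^ (1 - ε / 2)) atTop atTop :=
    (tendsto_rpow_atTop (by linarith)).comp tendsto_natCast_atTop_atTop
  filter_upwards [ht1.eventually_ge_atTop (18 * (g : ℝ)), ht2.eventually_ge_atTop 4,
    eventually_ge_atTop ((16 * g') ^ g'), eventually_ge_atTop (16 * g' + 2)] with n h1 h2 h3 h4
  have hn1 : 1 ≤ n := by omega
  have hn0 : (0 : ℝ) < n := by exact_mod_cast hn1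
  have hn1' : (1 : ℝ) ≤ n := by exact_mod_cast hn1
  set L := Real.logb 2 n with hL
  have hLn : (2 : ℝ) ^ L = n := Real.rpow_logb (by norm_num) (by norm_num) hn0
  have hL0 : 0 ≤ L := Real.logb_nonneg (by norm_num) hn1'
  -- the number of bits of a piece
  obtain ⟨b0, hb1, hb2⟩ : ∃ b0 : ℕ, (28 + 16 * L) / g ≤ b0 ∧
      (b0 : ℝ) ≤ (28 + 16 * L) / g + 1 :=
    ⟨⌈(28 + 16 * L) / g⌉₊, Nat.le_ceil _, (Nat.ceil_lt_add_one (by positivity)).le⟩
  rw [div_le_iff₀ hg0] at hb1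
  set b := b0 * g with hb
  have hbR : 28 + 16 * L ≤ (b : ℝ) := by
    rw [hb]
    push_cast
    linarith
  have hb28 : (28 : ℝ) ≤ b := by linarith
  have hb28N : 28 ≤ b := by exact_mod_cast hb28
  -- the number of parts
  set k := ⌊(n : ℝ) ^ (1 - ε / 2)⌋₊ with hk
  have hk1 : (k : ℝ) ≤ (n : ℝ) ^ (1 - ε / 2) := Nat.floor_le (by positivity)
  have hk2 : (n : ℝ) ^ (1 - ε / 2) ≤ k + 1 := (Nat.lt_floor_add_one _).le
  have hk4 : 4 ≤ k := by
    rw [hk]
    exact Nat.le_floor (by exact_mod_cast h2)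
  obtain ⟨κ, hκ⟩ : ∃ κ, k = κ + 1 := ⟨k - 1, by omega⟩
  have hkκ : (k : ℝ) = κ + 1 := by rw [hκ]; push_cast; ring
  -- the size of a piece
  set Q := 2 ^ b0 with hQ
  have hQR : (Q : ℝ) ≤ 4 * (n : ℝ) ^ (ε / 4) := by
    have e1 : (Q : ℝ) = (2 : ℝ) ^ (b0 : ℝ) := by
      rw [hQ, Real.rpow_natCast]
      push_cast
      rfl
    have e2 : (4 : ℝ) * (n : ℝ) ^ (ε / 4) = 2 ^ (2 + L * (ε / 4)) := by
      rw [Real.rpow_add (by norm_num), Real.rpow_mul (by norm_num), hLn, Real.rpow_two]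
      norm_num
    rw [e1, e2]
    apply Real.rpow_le_rpow_of_exponent_le (by norm_num)
    refine hb2.trans ?_
    have e3 : (28 + 16 * L) / g ≤ 1 + L * (ε / 4) := by
      rw [div_le_iff₀ hg0]
      nlinarith
    linarith
  have hparts : (k : ℝ) * g * (2 * Q + 1) ≤ n / 2 := by
    have e0 : (1 : ℝ) ≤ (n : ℝ) ^ (ε / 4) := by
      have : (1 : ℝ) ≤ g := by linarith
      linarith
    calc (k : ℝ) * g * (2 * Q + 1) ≤ (n : ℝ) ^ (1 - ε / 2) * g * (9 * (n : ℝ) ^ (ε / 4)) := by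
          gcongr
          linarith
      _ = ((n : ℝ) ^ (1 - ε / 2) * (n : ℝ) ^ (ε / 4)) * (9 * g) := by ring
      _ ≤ ((n : ℝ) ^ (1 - ε / 2) * (n : ℝ) ^ (ε / 4)) * ((n : ℝ) ^ (ε / 4) / 2) := by
          gcongr
          linarith
      _ = ((n : ℝ) ^ (1 - ε / 2) * (n : ℝ) ^ (ε / 4) * (n : ℝ) ^ (ε / 4)) / 2 := by ring
      _ = n / 2 := by
          rw [← Real.rpow_add hn0, ← Real.rpow_add hn0]
          have : 1 - ε / 2 + ε / 4 + ε / 4 = 1 := by ring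
          rw [this, Real.rpow_one]
  -- the selectors
  set Q' := n / (8 * g') with hQ'
  have hd : 0 < 8 * g' := by omega
  have hQ'1 : 1 ≤ Q' := by
    rw [hQ', Nat.one_le_div_iff hd]
    omega
  have hQ'2 : 8 * g' * Q' ≤ n := Nat.mul_div_le _ _
  have hQ'3 : n < 8 * g' * (Q' + 1) := Nat.lt_mul_div_succ _ hd
  have hsel : ((g' * (2 * Q' + 1) : ℕ) : ℝ) ≤ n / 2 := by
    have : 2 * (g' * (2 * Q' + 1)) ≤ n := by nlinarith
    have h5 : ((2 * (g' * (2 * Q' + 1)) : ℕ) : ℝ) ≤ n := by exact_mod_cast this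
    push_cast at h5 ⊢
    linarith
  refine ⟨κ, b, Q, Q', by omega, by omega, ?_, ?_, ?_, ?_⟩
  · rw [hQ, hb, pow_mul]
  · have : (((κ + 1) * g * (2 * Q + 1) + g' * (2 * Q' + 1) : ℕ) : ℝ) ≤ (n : ℝ) := by
      rw [← hκ]
      push_cast at hsel ⊢
      linarith
    exact_mod_cast this
  · have h5 : n ≤ 16 * g' * Q' := by nlinarith
    have h6 : n ^ g' ≤ (16 * g') ^ g' * Q' ^ g' := by
      rw [← mul_pow]
      exact Nat.pow_le_pow_left h5 _
    have h7 : n ^ g' = n * n ^ (g' - 1) := by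
      rw [← pow_succ']
      congr 1
      omega
    have h8 : (16 * g') ^ g' * n ^ (g' - 1) ≤ (16 * g') ^ g' * Q' ^ g' := by
      calc _ ≤ n * n ^ (g' - 1) := Nat.mul_le_mul_right _ h3
        _ = n ^ g' := h7.symm
        _ ≤ _ := h6
    exact Nat.le_of_mul_le_mul_left h8 (by positivity)
  · intro s hs
    have hκ1 : 1 ≤ κ := by omega
    have hkb : (κ + 1) * b ≤ n := by
      have h5 : b ≤ g * (2 * Q + 1) := by
        have : b0 < Q := Nat.lt_two_pow_self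
        rw [hb, mul_comm]
        exact Nat.mul_le_mul_left _ (by omega)
      have h6 : (((κ + 1) * (g * (2 * Q + 1)) : ℕ) : ℝ) ≤ (n : ℝ) := by
        rw [← hκ]
        push_cast
        have : (k : ℝ) * (g * (2 * Q + 1)) = k * g * (2 * Q + 1) := by ring
        rw [this]
        linarith
      have h7 : (κ + 1) * (g * (2 * Q + 1)) ≤ n := by exact_mod_cast h6
      exact (Nat.mul_le_mul_left _ h5).trans h7
    have hκn : κ + 1 ≤ n := by
      have : (κ + 1) * 1 ≤ (κ + 1) * b := Nat.mul_le_mul_left _ (by omega)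
      omega
    have hD := apx2_le (κ := κ) (b := b) hn1 hkb hκn hκ1
    set D := apx2 κ b ^ 2 with hDdef
    have hDpos : 0 < D := pow_pos (apx2_pos hκ1 (by omega)) 2
    set d := 2 * (κ : ℝ) * (7 + 4 * L) with hd
    have hκ0 : (0 : ℝ) ≤ κ := Nat.cast_nonneg _
    have hd1 : 2 * d ≤ κ * b := by
      calc 2 * d = κ * (28 + 16 * L) := by rw [hd]; ring
        _ ≤ κ * b := mul_le_mul_of_nonneg_left hbR hκ0
    have hd0 : 0 ≤ d := by rw [hd]; positivity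
    have hkb' : (κ : ℝ) * b ≤ k * b := by
      rw [hkκ]
      nlinarith
    have hbig : (D : ℝ) ≤ 2 ^ (k * b) := by
      calc (D : ℝ) ≤ 2 ^ d := hD
        _ ≤ 2 ^ (((k * b : ℕ)) : ℝ) := by
            apply Real.rpow_le_rpow_of_exponent_le (by norm_num)
            push_cast
            linarith
        _ = _ := Real.rpow_natCast _ _
    have hbigN : D ≤ 2 ^ (k * b) := by exact_mod_cast hbig
    rw [← hκ] at hs
    have hs1' : 1 ≤ 2 ^ (k * b) / D := (Nat.one_le_div_iff hDpos).2 hbigN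
    have hs2' : 2 ^ (k * b) ≤ 2 * D * s := by
      have h1 : 2 ^ (k * b) < D * (2 ^ (k * b) / D + 1) := Nat.lt_mul_div_succ _ hDpos
      have h2 : D * (2 ^ (k * b) / D + 1) ≤ D * (s + s) := Nat.mul_le_mul_left _ (by omega)
      calc 2 ^ (k * b) ≤ D * (s + s) := (h1.trans_le h2).le
        _ = _ := by ring
    have hs3 : (2 : ℝ) ^ ((k : ℝ) * b) ≤ 2 * D * s := by
      have : ((2 ^ (k * b) : ℕ) : ℝ) ≤ ((2 * D * s : ℕ) : ℝ) := by exact_mod_cast hs2'
      have e : ((2 ^ (k * b) : ℕ) : ℝ) = (2 : ℝ) ^ ((k : ℝ) * b) := by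
        rw [Nat.cast_pow, ← Real.rpow_natCast]
        push_cast
        rfl
      rw [e] at this
      push_cast at this
      exact this
    have hexp : (n : ℝ) ^ (1 - ε) ≤ k + 1 := by
      refine le_trans ?_ hk2
      apply Real.rpow_le_rpow_of_exponent_le hn1'
      linarith
    have hfin : (2 : ℝ) ^ (d + 1) * 2 ^ ((n : ℝ) ^ (1 - ε)) ≤ 2 ^ (d + 1) * s := by
      calc (2 : ℝ) ^ (d + 1) * 2 ^ ((n : ℝ) ^ (1 - ε)) = 2 ^ (d + 1 + (n : ℝ) ^ (1 - ε)) := by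
            rw [← Real.rpow_add (by norm_num)]
        _ ≤ 2 ^ ((k : ℝ) * b) := by
            apply Real.rpow_le_rpow_of_exponent_le (by norm_num)
            have h5 : (4 : ℝ) ≤ k := by exact_mod_cast hk4
            nlinarith
        _ ≤ 2 * D * s := hs3
        _ ≤ 2 * 2 ^ d * s := by gcongr
        _ = _ := by
            rw [Real.rpow_add (by norm_num : (0 : ℝ) < 2) d 1, Real.rpow_one]
            ring
    exact le_of_mul_le_mul_left hfin (by positivity)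

theorem mainK (ε : ℝ) (hε : 0 < ε) : ∃ c : ℕ, ∀ K ≥ c, ∀ᶠ n : ℕ in atTop,
    ∀ {N : ℕ} (C : Circuit (Fin K → Fin n × Bool) N) (out : Wire (Fin K → Fin n × Bool) N),
      (∀ F, out.eval F (C.vals F) = true ↔ ¬ SatK F) →
      (C.fanins.map (· + 1)).prod ≤ n ^ (K - c) →
      (2 : ℝ) ^ ((n : ℝ) ^ (1 - ε)) ≤ ((C.size + C.fanins.sum : ℕ) : ℝ) := by
  obtain ⟨g, hg, hpar⟩ := paramsK (min ε (1 / 2)) (by positivity)
    (lt_of_le_of_lt (min_le_right _ _) (by norm_num))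
  refine ⟨2 * g + 1, fun K hK => ?_⟩
  obtain ⟨g', rfl⟩ : ∃ g', K = 2 * g + g' := ⟨K - 2 * g, by omega⟩
  have hg' : 1 ≤ g' := by omega
  filter_upwards [hpar g' hg', eventually_ge_atTop 1] with n hn hn1
  intro N C out hC hP
  obtain ⟨κ, b, Q, Q', h1, h2, h3, h4, h5, h6⟩ := hn
  have h7 := h6 _ (satK_lower h1 h2 hg h3 (by omega) rfl h4 C out hC (by
    refine hP.trans ?_
    have : 2 * g + g' - (2 * g + 1) = g' - 1 := by omega
    rw [this]
    exact h5))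
  refine le_trans ?_ h7
  apply Real.rpow_le_rpow_of_exponent_le (by norm_num)
  apply Real.rpow_le_rpow_of_exponent_le (by exact_mod_cast hn1)
  have := min_le_left ε (1 / 2)
  linarith

end Pool.Agent.H559R5
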